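import Pool.Agent.R7.Asc.Final

/-!
# MP_b4bd03_co: an upper bound for the length of `δ_k`-minimal ascent sequences

For every `k ≥ 3` every `δ_k`-minimal ascent sequence has length at most `(4k² + 3k - 4) / 3`,
and for `k = 3, 4, 5` its length is at most the conjectured value `k² + 2k - 2`.
-/

set_option autoImplicit false

namespace Pool.Agent.Results.MP_b4bd03_co.LengthBound

open Pool.Agent.R7.Asc

/-- Upper bounds for `L(k)`, the maximal length of a `δ_k`-minimal ascent sequence:
`L(k) ≤ (4k² + 3k - 4) / 3` for all `k ≥ 3`, and `L(k) ≤ k² + 2k - 2` for `k = 3, 4, 5`. -/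
theorem result :
    (∀ k, 3 ≤ k → ∀ σ : List ℕ, IsMinimal (delta k) σ → 3 * σ.length + 4 ≤ 4 * k ^ 2 + 3 * k) ∧
    (∀ k, 3 ≤ k → k ≤ 5 → ∀ σ : List ℕ, IsMinimal (delta k) σ →
      σ.length ≤ k ^ 2 + 2 * k - 2) := by
  refine ⟨fun k hk σ h => general_bound hk h, ?_⟩
  intro k h3 h5 σ h
  have hk : k = 3 ∨ k = 4 ∨ k = 5 := by omega
  rcases hk with rfl | rfl | rfl
  · have := general_bound (by norm_num) h
    omega
  · exact bound4 h
  · exact bound5 h

end Pool.Agent.Results.MP_b4bd03_co.LengthBound
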